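import Pool.Agent.helper52.WP.Defs
import Pool.Agent.helper45.BR.Spec

/-!
# Project hy: (MP_af9036_an): Theorem HYP: outside the closure of `H_n` every compact invariant set without the critical point is hyperbolic

Paper: helper22, /team-store/MP_af9036_HYP_helper22.md (uses Theorem W+ of helper52). This is a version adapted to Lean: everything is written in the coordinate of the unit disc `UD = ball 0 1` given by a Riemann map `φ : UD → V` of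
`V = V_k = f^(-k)(D(0,4))`, and hyperbolic balls are small (radius parameter `1/16`).

THEOREM (`HYC_stmt`). `n ≥ 2`, `c ∈ M_n`, `f z = z^n + c`, `Λ` compact, `f(Λ) ⊆ Λ`, `0 ∉ Λ`. If for every `m ≥ 1` there is `z ∈ Λ` with `|(f^m)'(z)| ≤ 1` then `c ∈ closure(H_n)`.

RULES. File `Pool/Agent/<seat>/HY/XX.lean`: `import Pool.Agent.helper52.HY.Spec`, `set_option autoImplicit false`, `open Complex Metric Set Filter Topology MeasureTheory`,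
`open Pool.Agent.helper98.ILF Pool.Agent.helper16.Multibrot`, `noncomputable section`, `namespace HY`, `theorem XX (h : YY_stmt) ... : XX_stmt`. Hypotheses may be: other statements of this file (no circles), and the proved tools
`V3.KO0_stmt` (injective: derivative `≠ 0`), `V3.KO1_stmt` (quarter theorem), `V3.KO3_stmt` (distortion), `V3.TUL_stmt, TMO_stmt, TDE_stmt, THU_stmt` (Pool/Agent/helper54/V3/SpecT.lean), `MPS.LR_stmt`, `MPS.LRU_stmt` (`n`-th roots on convex sets, Pool/Agent/helper36/MP/SpecP.lean), `BR.BRG_stmt`,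
`WP.WPU_stmt` (Theorem W+). Auxiliary lemmas are prefixed `XX_`. No `sorry`, no double quotes in comments.
-/

set_option autoImplicit false

open Complex Metric Set Filter Topology MeasureTheory
open Pool.Agent.helper98.ILF Pool.Agent.helper16.Multibrot

noncomputable section

namespace HY

/-! ## Definitions -/

/-- the unit disc. -/
def UD : Set ℂ := ball 0 1

/-- the map `z ^ n + c`. -/
def fz (n : ℕ) (c z : ℂ) : ℂ := z ^ n + c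

/-- the automorphism of the disc which sends `a` to `0`. -/
def T (a x : ℂ) : ℂ := (x - a) / (1 - (starRingEnd ℂ) a * x)

/-- its inverse, sends `0` to `a`. -/
def S (a x : ℂ) : ℂ := (x + a) / (1 + (starRingEnd ℂ) a * x)

/-- hyperbolic size of the derivative of a map from the disc to the disc (with respect to the Euclidean metric at the source). -/
def hd (H : ℂ → ℂ) (x : ℂ) : ℝ := ‖deriv H x‖ / (1 - ‖H x‖ ^ 2)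

/-- univalent self maps of the disc. -/
structure UN (H : ℂ → ℂ) : Prop where
  dif : DifferentiableOn ℂ H UD
  inj : InjOn H UD
  map : MapsTo H UD UD

/-- `φ` is a Riemann map of `V` with `φ 0 = a`. -/
structure RM (V : Set ℂ) (a : ℂ) (φ : ℂ → ℂ) : Prop where
  dif : DifferentiableOn ℂ φ UD
  inj : InjOn φ UD
  img : φ '' UD = V
  val : φ 0 = a

/-- `V_k = f^(-k)(D(0,4))`. -/
def VV (n : ℕ) (c : ℂ) (k : ℕ) : Set ℂ := {z | ‖(fz n c)^[k] z‖ < 4}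

/-- the setting: `V = φ(UD)`, `U = f⁻¹(V) = ψ(UD) ⊆ V`, `φ 0 = ψ 0 = 0`, `φ b = c`. -/
structure SG (n : ℕ) (c : ℂ) (V : Set ℂ) (φ ψ : ℂ → ℂ) (b : ℂ) : Prop where
  hn : 2 ≤ n
  rm : RM V 0 φ
  rmu : RM {z | fz n c z ∈ V} 0 ψ
  sub : {z | fz n c z ∈ V} ⊆ V
  hb : b ∈ UD
  hbc : φ b = c
  rel : ∀ x ∈ UD, fz n c (ψ x) = φ (S b (x ^ n))

/-- an orbit segment in the coordinate of the disc, at hyperbolic distance at least about `M log 2` from `0` (except the last point). -/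
structure Orb (n : ℕ) (c : ℂ) (φ : ℂ → ℂ) (M : ℕ) (y : ℕ → ℂ) (j : ℕ) : Prop where
  mem : ∀ i ≤ j, y i ∈ UD
  stp : ∀ i < j, φ (y (i + 1)) = fz n c (φ (y i))
  far : ∀ i < j, 1 - ‖y i‖ ≤ (1 / 2 : ℝ) ^ M

/-! ## The disc -/

/-- MOB: the automorphisms of the disc.
PROOF. Algebra. `1 - ‖T a x‖² = (1 - ‖a‖²)(1 - ‖x‖²)/‖1 - conj a x‖²`. Derivative of `T a`: `(1 - ‖a‖²)/(1 - conj a x)²`. The last claim: with `t = ‖T a x‖ ≤ 1/3`, `x = S a u`, `‖u‖ = t`: `1 - ‖x‖² = (1 - ‖a‖²)(1 - t²)/‖1 + conj a u‖² ≤ (1 - ‖a‖²)(1+t)/(1-t) ≤ 2(1 - ‖a‖²)`, and `1 - ‖x‖ ≤ 1 - ‖x‖²`, `1 - ‖a‖² ≤ 2(1 - ‖a‖)`. -/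
def MOB_stmt : Prop := ∀ a ∈ UD, (∀ x ∈ UD, T a x ∈ UD ∧ S a x ∈ UD ∧ S a (T a x) = x ∧ T a (S a x) = x) ∧
  T a a = 0 ∧ S a 0 = a ∧ DifferentiableOn ℂ (T a) UD ∧ DifferentiableOn ℂ (S a) UD ∧ InjOn (T a) UD ∧ InjOn (S a) UD ∧
  (∀ x ∈ UD, 1 - ‖T a x‖ ^ 2 = (1 - ‖a‖ ^ 2) * (1 - ‖x‖ ^ 2) / ‖1 - (starRingEnd ℂ) a * x‖ ^ 2) ∧
  (∀ x ∈ UD, ‖T a x‖ = ‖T x a‖) ∧ (∀ x ∈ UD, deriv (T a) x = (1 - (‖a‖ : ℂ) ^ 2) / (1 - (starRingEnd ℂ) a * x) ^ 2) ∧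
  deriv (S a) 0 = 1 - (‖a‖ : ℂ) ^ 2 ∧
  (∀ x ∈ UD, ‖T a x‖ ≤ 1 / 3 → 1 - ‖x‖ ≤ 4 * (1 - ‖a‖))

/-- HDI: invariance and Schwarz-Pick for `hd`. Uses MOB.
PROOF. (1) `hd (T a ∘ H) = hd H`: chain rule and `‖(T a)' y‖/(1 - ‖T a y‖²) = 1/(1 - ‖y‖²)` (MOB). The same for `S a`. (2) Schwarz-Pick: `hd J u ≤ 1/(1 - ‖u‖²)` for `J : UD → UD` (Schwarz lemma for `T (J u) ∘ J ∘ S u`, `Complex.norm_deriv_le_one..`), chain rule. (3) `H(x) = S y (x/16)`: `hd = hd (x ↦ x/16) = (1/16)/(1 - ‖x‖²/256)`. -/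
def HDI_stmt : Prop := (∀ (a : ℂ) (H : ℂ → ℂ) (x : ℂ), a ∈ UD → DifferentiableAt ℂ H x → H x ∈ UD →
    hd (fun z => T a (H z)) x = hd H x ∧ hd (fun z => S a (H z)) x = hd H x) ∧
  (∀ (J X : ℂ → ℂ) (x : ℂ), DifferentiableOn ℂ J UD → MapsTo J UD UD → DifferentiableAt ℂ X x → X x ∈ UD →
    hd (fun z => J (X z)) x ≤ hd X x) ∧
  (∀ y ∈ UD, UN (fun x => S y (x / 16)) ∧ S y (0 / 16) = y ∧ hd (fun x => S y (x / 16)) 0 = 1 / 16 ∧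
    ∀ x ∈ UD, hd (fun x => S y (x / 16)) x ≤ 1 / 8)

/-- DLN: length. Uses MOB, HDI.
PROOF. `G = T (H 0) ∘ H`, `G 0 = 0`, `‖G' x‖ = hd G x (1 - ‖G x‖²) ≤ L` (HDI); mean value inequality on the convex disc. -/
def DLN_stmt : Prop := ∀ (H : ℂ → ℂ) (L : ℝ), DifferentiableOn ℂ H UD → MapsTo H UD UD → (∀ x ∈ UD, hd H x ≤ L) →
  ∀ x ∈ UD, ‖T (H 0) (H x)‖ ≤ L * ‖x‖

/-- KAP: the Schwarz factor of `x ↦ x^n`.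
PROOF. `s = -log t ∈ (0, log 2]`, `s ≤ 2(1 - t)`. `(1 - t^(2n))/(n t^(n-1) (1 - t²)) = (1/n) ∑_{j<n} t^(2j-(n-1))`, pair `j` with `n-1-j`: `= (1/n) ∑_j cosh((n-1-2j) s) ≤ exp(n² s²/2)` (`Real.cosh_le_exp_half_sq`), `s²/2 ≤ 2(1-t)²`. -/
def KAP_stmt : Prop := ∀ (n : ℕ) (t : ℝ), 1 ≤ n → 1 / 2 ≤ t → t < 1 →
  1 - t ^ (2 * n) ≤ Real.exp (2 * n ^ 2 * (1 - t) ^ 2) * (n * t ^ (n - 1) * (1 - t ^ 2))

/-- PIG: pigeonhole for bounded holomorphic functions.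
PROOF. Finite `η/16`-net of `closedBall 0 (1/2)`; the functions are Lipschitz there with constant `≤ 4` (Cauchy, radius `1/2`: `‖G'‖ ≤ 2`); round the values at the points of the net to a finite `η/8`-net of the unit disc: `N` = number of the functions from the first net to the second net. Two indices with the same rounding are `η`-close. -/
def PIG_stmt : Prop := ∀ η : ℝ, 0 < η → ∃ N : ℕ, ∀ (ι : Finset ℕ) (G : ℕ → ℂ → ℂ), N < ι.card →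
  (∀ i ∈ ι, DifferentiableOn ℂ (G i) UD ∧ MapsTo (G i) UD UD) →
  ∃ i ∈ ι, ∃ l ∈ ι, i < l ∧ ∀ x ∈ closedBall (0 : ℂ) (1 / 2), ‖G i x - G l x‖ ≤ η

/-- COV: pigeonhole for points in an annulus of the hyperbolic plane.
PROOF. `w = 2^(-m)`. Round `(1 - ‖y‖)/w ∈ [1/2, 1]` to one of `⌈16/η⌉ + 1` intervals and the argument to one of `⌈64/(η w)⌉ + 1 ≤ (⌈64/η⌉ + 1) 2^m` arcs of length `≤ η w/8`; `Finset.exists_lt_card_fiber_of_mul_lt_card_of_maps_to`. In one cell `‖y - y'‖ ≤ η w/4` and `‖1 - conj y y'‖ ≥ 1 - ‖y‖ ≥ w/2`, so `‖T y y'‖ ≤ η/2`. -/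
def COV_stmt : Prop := ∀ η : ℝ, 0 < η → ∃ N : ℕ, ∀ (m : ℕ) (ι : Finset ℕ) (y : ℕ → ℂ) (M : ℕ),
  (∀ i ∈ ι, (1 / 2 : ℝ) ^ (m + 1) ≤ 1 - ‖y i‖ ∧ 1 - ‖y i‖ ≤ (1 / 2 : ℝ) ^ m) → N * 2 ^ m * M < ι.card →
  ∃ ι' ⊆ ι, M < ι'.card ∧ ∀ i ∈ ι', ∀ l ∈ ι', ‖T (y i) (y l)‖ ≤ η

/-- STO: the stop lemma. Uses MOB, HDI, `V3.KO3_stmt`.
PROOF. `G = T (H 0) ∘ H`: univalent, `G 0 = 0`, `‖G' 0‖ = hd H 0 ≤ λ₀`, `‖G' x‖ ≤ hd G x = hd H x ≤ 1/4`. KO3 with `η = 1/32` on `ball 0 1`: `‖G x‖ ≤ C λ₀` for `‖x‖ < 31/32`; for other `x` add the length of the rest of the radius: `≤ C λ₀ + (1/4)(1/32)·1.1`. `λ₀ = 1/(400 C)`. -/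
def STO_stmt : Prop := ∃ l₀ : ℝ, 0 < l₀ ∧ l₀ < 1 / 16 ∧ ∀ H : ℂ → ℂ, UN H → (∀ x ∈ UD, hd H x ≤ 1 / 4) → hd H 0 ≤ l₀ →
  ∀ x ∈ UD, ‖T (H 0) (H x)‖ ≤ 1 / 64

/-! ## Domains and Riemann maps -/

/-- VKB: the domains `V_k`.
PROOF. `‖z‖ ≥ 4` implies `‖z^n + c‖ ≥ 3‖z‖` (`‖c‖ ≤ 2`); preimages under continuous maps; a point of all `V_k`, `k ≥ k₀`, has a bounded orbit, so it is in `filled` (orbit norms `> 2 + ‖c‖` grow, `growth` in Pool/Agent/helper98/ILF/Poly.lean). `c ∈ multibrot n`: `‖c‖ ≤ 2`, `c, 0 ∈ filled` (`BR.MBB_stmt` or directly: orbit of `0` not tending to infinity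
is bounded by `2 + ‖c‖`, growth). `f⁻¹ filled = filled`, `f(filled) ⊆ filled`. -/
def VKB_stmt : Prop := ∀ (n : ℕ) (c : ℂ), 2 ≤ n → c ∈ multibrot n →
  ‖c‖ ≤ 2 ∧ (0 : ℂ) ∈ filled n c ∧ c ∈ filled n c ∧ IsCompact (filled n c) ∧ (∀ z ∈ filled n c, fz n c z ∈ filled n c) ∧
  (∀ k, IsOpen (VV n c k)) ∧ (∀ k, VV n c k ⊆ ball 0 4) ∧ (∀ k, VV n c (k + 1) ⊆ VV n c k) ∧
  (∀ k, VV n c (k + 1) = {z | fz n c z ∈ VV n c k}) ∧ (∀ k, filled n c ⊆ VV n c k) ∧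
  (∀ (k : ℕ) (z : ℂ), (∀ l ≥ k, z ∈ VV n c l) → z ∈ filled n c) ∧ (∀ k, closure (VV n c (k + 1)) ⊆ VV n c k)

/-- RMI: the Riemann map of the preimage. Uses MOB, `MPS.LR_stmt`, `MPS.LRU_stmt`.
PROOF. `φ y - φ 0 = y e(y)` with `e` holomorphic and without zeros on `UD` (`dslope`; `φ` injective, `φ' 0 ≠ 0`: KO0), `φ 0 = c`. LR: `E` on `UD` with `E x ^ n = e (x^n)`. `ψ x = x E x`: `ψ x ^ n + c = φ (x^n)`. Injective: `ψ x = ψ x'` gives `x^n = x'^n`, `x' = ω x`, `ω^n = 1`; `E(ωx)^n = E(x)^n` and equality at `0`: `E (ω x) = E x` (LRU), so `ψ x' = ω ψ x`: `ω = 1` or `x = 0`.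
Surjective onto `{z | f z ∈ V}`: `f z = φ y`, `y = x^n`, `ψ x ^ n = z^n`, `z = ω ψ x = ψ (ω x)`. -/
def RMI_stmt : Prop := ∀ (n : ℕ) (c : ℂ) (V : Set ℂ) (φ : ℂ → ℂ), 2 ≤ n → RM V c φ →
  ∃ ψ : ℂ → ℂ, RM {z | fz n c z ∈ V} 0 ψ ∧ ∀ x ∈ UD, fz n c (ψ x) = φ (x ^ n)

/-- RMC: change of the base point. Uses MOB. PROOF. `φ ∘ S b`, `b ∈ UD` with `φ b = a`. -/
def RMC_stmt : Prop := ∀ (V : Set ℂ) (a₀ a : ℂ) (φ : ℂ → ℂ), RM V a₀ φ → a ∈ V →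
  ∃ b ∈ UD, φ b = a ∧ RM V a (fun x => φ (S b x))

/-- SGE: the setting exists for all `k`. Uses RMI, RMC, VKB, MOB.
PROOF. Induction: a Riemann map of `V_0 = ball 0 4` is `4x`; if `V_k` has a Riemann map (RMC: with value `c` at `0`) then RMI gives one of `V_(k+1)` with value `0` at `0`. For `SG`: `φ` with `φ 0 = 0` (RMC), `b` with `φ b = c`, `φ_c = φ ∘ S b` (`RM V c`), RMI: `ψ`, `f(ψ x) = φ (S b (x^n))`. -/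
def SGE_stmt : Prop := ∀ (n : ℕ) (c : ℂ), 2 ≤ n → c ∈ multibrot n → ∀ k : ℕ, ∃ (φ ψ : ℂ → ℂ) (b : ℂ),
  SG n c (VV n c k) φ ψ b

/-- SHR: the filled Julia set away from `0` is near the boundary of the disc. Uses VKB, `V3.TMO_stmt`, `V3.TUL_stmt` (or any Montel theorem).
PROOF. Suppose not: for every `k` a Riemann map `φ_k` of `V_k`, `φ_k 0 = 0`, and `x_k`, `‖x_k‖ ≤ 1 - η`, `φ_k x_k ∈ filled`, `‖φ_k x_k‖ ≥ ε`. `‖φ_k‖ ≤ 4`: TMO: a locally uniform limit `F` along an ultrafilter, `F 0 = 0`, `‖F (lim x_k)‖ ≥ ε`: not constant, open mapping: `F '' UD` is open and contained in `closure V_l` for all `l`, so in `filled` (VKB):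
`interior (filled n c) ≠ ∅`: contradiction. -/
def SHR_stmt : Prop := ∀ (n : ℕ) (c : ℂ), 2 ≤ n → c ∈ multibrot n → interior (filled n c) = ∅ → ∀ ε > (0 : ℝ), ∀ η > (0 : ℝ),
  ∃ k : ℕ, ∀ φ : ℂ → ℂ, RM (VV n c k) 0 φ → ∀ x ∈ UD, φ x ∈ filled n c → ε ≤ ‖φ x‖ → 1 - ‖x‖ ≤ η

/-! ## One step -/

/-- PDC: distance to the critical value. Uses MOB.
PROOF. `φ y ∈ U`, so `φ y = ψ x`, `x ∈ UD`; `J = φ⁻¹ ∘ ψ : UD → UD` is holomorphic (inverse of an injective holomorphic map), `J 0 = 0`, `y = J x`: Schwarz `‖y‖ ≤ ‖x‖`. `φ y' = f(ψ x) = φ (S b (x^n))`, so `y' = S b (x^n)`, `T b y' = x^n`. -/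
def PDC_stmt : Prop := ∀ (n : ℕ) (c : ℂ) (V : Set ℂ) (φ ψ : ℂ → ℂ) (b : ℂ), SG n c V φ ψ b → ∀ y ∈ UD, ∀ y' ∈ UD,
  φ y' = fz n c (φ y) → ‖y‖ ^ n ≤ ‖T b y'‖

/-- DST: the derivative inequality. Uses MOB, HDI, KAP.
PROOF. `X = ψ⁻¹ ∘ φ ∘ H : UD → UD` holomorphic (`φ (H x) ∈ U` as `f(φ (H x)) = φ (H' x) ∈ V`), `H' = S b (X^n)` (injectivity of `φ`), `H = J ∘ X`, `J = φ⁻¹ ∘ ψ`, `J 0 = 0`, so `‖H x‖ ≤ ‖X x‖`. HDI: `hd H' x = hd (X^n) x = n t^(n-1) ‖X' x‖/(1 - t^(2n))`, `t = ‖X x‖ ≥ ‖H x‖ ≥ 1/2`; `hd H x ≤ hd X x = ‖X' x‖/(1 - t²)`. KAP; `(1 - t)² ≤ (1 - ‖H x‖)²`. -/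
def DST_stmt : Prop := ∀ (n : ℕ) (c : ℂ) (V : Set ℂ) (φ ψ : ℂ → ℂ) (b : ℂ), SG n c V φ ψ b → ∀ H H' : ℂ → ℂ,
  DifferentiableOn ℂ H UD → DifferentiableOn ℂ H' UD → MapsTo H UD UD → MapsTo H' UD UD →
  (∀ x ∈ UD, φ (H' x) = fz n c (φ (H x))) → ∀ x ∈ UD, 1 / 2 ≤ ‖H x‖ →
  hd H x ≤ Real.exp (2 * n ^ 2 * (1 - ‖H x‖) ^ 2) * hd H' x

/-- BRH: existence of the next inverse branch. Uses MOB, PDC, `MPS.LR_stmt`.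
PROOF. `y' = H' 0`, `q = ‖y‖^n ≥ 3/4`. For `v ∈ ball 0 q`: `u = S y' v ≠ b` (`‖T b y'‖ ≥ q` by PDC, `‖T b y'‖ = ‖T y' b‖`, `T y' u = v`). So `φ (S y' v) - c ≠ 0` on the convex `ball 0 q`; LR: `h v ^ n = φ (S y' v) - c`, `h 0 = φ y`. `h v ∈ U ⊆ V`; `g v = φ⁻¹ (h v) ∈ UD`, holomorphic, `g 0 = y`. Schwarz for `T y ∘ g` on `ball 0 q`: `‖T y (g v)‖ ≤ ‖v‖/q`.
`H x = g (T y' (H' x))` (`‖T y' (H' x)‖ ≤ 1/4 < q`). Injective because `H'` is. -/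
def BRH_stmt : Prop := ∀ (n : ℕ) (c : ℂ) (V : Set ℂ) (φ ψ : ℂ → ℂ) (b : ℂ), SG n c V φ ψ b → ∀ (y : ℂ) (H' : ℂ → ℂ),
  y ∈ UD → φ (H' 0) = fz n c (φ y) → 3 / 4 ≤ ‖y‖ ^ n → UN H' → (∀ x ∈ UD, ‖T (H' 0) (H' x)‖ ≤ 1 / 4) →
  ∃ H : ℂ → ℂ, UN H ∧ H 0 = y ∧ (∀ x ∈ UD, φ (H' x) = fz n c (φ (H x))) ∧ ∀ x ∈ UD, ‖T y (H x)‖ ≤ 1 / 3

/-! ## Counting with Theorem W+ -/

/-- CLO: two close branches contradict W+. Uses `WP.WPU_stmt`, MOB, HDI, `V3.KO0_stmt`, `V3.KO1_stmt`, `V3.KO3_stmt`.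
PROOF. `a = H 0`, `a' = H' 0`, `G = T a ∘ H`, `G' = T a' ∘ H'` univalent, fix `0`, `‖G'(0)‖ = hd H 0 ≥ l` (derivative of `G`). `Φ = φ ∘ S a` is univalent on `UD`, `f^m (Φ (G x)) = φ (H' x) = Φ (T a (S a' (G' x)))`. `T a (S a' v)` is `v` up to `C η` for `‖v‖ ≤ 1/2` (`T a (S a' v) = e^(iθ)(v + δ)/(1 + conj δ v)`, `δ = T a a'`, `e^(iθ) = (1 - conj a' a)/(1 - conj a a')`-type factor,
`‖e^(iθ) - 1‖ ≤ C‖δ‖`). With `ρ₁ = l/(8K)`: `ball 0 ρ₁ ⊆ G '' ball 0 (1/2)` (KO1), `g u = T a (S a' (G' (G⁻¹ u)))` satisfies `‖g u - u‖ ≤ C' η` on `ball 0 ρ₁`, `f^m (Φ u) = Φ (g u)`; `g` is injective on `ball 0 (ρ₁/2)` (derivative near `1`). KO1: `Φ '' ball 0 (ρ₁/2) ⊇ ball w ρ`, `w = φ a`, `ρ = ρ₁‖Φ' 0‖/(2K)`: `f^m` is injective on `ball w ρ`,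
`‖f^m w - w‖ = ‖Φ (g 0) - Φ 0‖ ≤ C'' η ρ`, `(f^m)'(w) = Φ'(g 0) g' 0/Φ' 0 = 1 + O(η/ρ₁)` (KO3). W+ with `ε₀(n,r)`. -/
def CLO_stmt : Prop := ∀ n : ℕ, 2 ≤ n → ∀ r > (0 : ℝ), ∀ l > (0 : ℝ), ∃ η > (0 : ℝ), ∀ c ∈ multibrot n,
  Disjoint (ball c r) (hyperbolic n) → ∀ (V : Set ℂ) (φ : ℂ → ℂ), RM V 0 φ → ∀ (H H' : ℂ → ℂ) (m : ℕ), 1 ≤ m →
  UN H → UN H' → l ≤ hd H 0 → (∀ x ∈ UD, (fz n c)^[m] (φ (H x)) = φ (H' x)) → ‖T (H 0) (H' 0)‖ ≤ η →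
  (∀ x ∈ closedBall (0 : ℂ) (1 / 2), ‖T (H 0) (H x) - T (H' 0) (H' x)‖ ≤ η) → False

/-- CNH: the count. Uses CLO, PIG, COV, MOB.
PROOF. `η` from CLO; `N₁` from PIG for `η`, `N₂` from COV for `η`; `N = N₂ (N₁ + 1)`. If `N 2^m < card`: COV with `M = N₁`: a subset with more than `N₁` elements and mutual distances `≤ η`; PIG for `G i = T (H i 0) ∘ H i`: `i < l` close; CLO with `m := l - i`: contradiction. -/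
def CNH_stmt : Prop := ∀ n : ℕ, 2 ≤ n → ∀ r > (0 : ℝ), ∀ l > (0 : ℝ), ∃ N : ℕ, ∀ c ∈ multibrot n,
  Disjoint (ball c r) (hyperbolic n) → ∀ (V : Set ℂ) (φ : ℂ → ℂ), RM V 0 φ → ∀ (ι : Finset ℕ) (H : ℕ → ℂ → ℂ) (m : ℕ),
  (∀ i ∈ ι, UN (H i) ∧ l ≤ hd (H i) 0 ∧ (1 / 2 : ℝ) ^ (m + 1) ≤ 1 - ‖H i 0‖ ∧ 1 - ‖H i 0‖ ≤ (1 / 2 : ℝ) ^ m) →
  (∀ i ∈ ι, ∀ k ∈ ι, i < k → ∀ x ∈ UD, (fz n c)^[k - i] (φ (H i x)) = φ (H k x)) → ι.card ≤ N * 2 ^ m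

/-- SMH: the sum of the losses (pure). 
PROOF. For `i ∈ ι` let `m i ≥ M` be the number with `2^(-m-1) ≤ a i ≤ 2^(-m)` (`a i > 0`, `a i ≤ 2^(-M)`; e.g. `m = ⌊-log₂ a⌋`). `∑ a² ≤ ∑_{m ≥ M} N 2^m 4^(-m) = 2 N 2^(-M)` (finite sum over the occurring `m`, geometric series). -/
def SMH_stmt : Prop := ∀ (N M : ℕ) (ι : Finset ℕ) (a : ℕ → ℝ), (∀ i ∈ ι, 0 < a i ∧ a i ≤ (1 / 2 : ℝ) ^ M) →
  (∀ (m : ℕ) (κ : Finset ℕ), κ ⊆ ι → (∀ i ∈ κ, (1 / 2 : ℝ) ^ (m + 1) ≤ a i ∧ a i ≤ (1 / 2 : ℝ) ^ m) → κ.card ≤ N * 2 ^ m) →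
  ∑ i ∈ ι, a i ^ 2 ≤ 2 * N * (1 / 2 : ℝ) ^ M

/-! ## Clean balls -/

/-- a family of inverse branches along the orbit, for the indices `i ≤ l ≤ j`, before the stop. -/
structure Fam (n : ℕ) (c : ℂ) (φ : ℂ → ℂ) (l₀ : ℝ) (y : ℕ → ℂ) (j i : ℕ) (H : ℕ → ℂ → ℂ) : Prop where
  ij : i ≤ j
  un : ∀ l, i ≤ l → l ≤ j → UN (H l)
  val : ∀ l, i ≤ l → l ≤ j → H l 0 = y l
  top : ∀ x ∈ UD, H j x = S (y j) (x / 16)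
  rel : ∀ l, i ≤ l → l < j → ∀ x ∈ UD, φ (H (l + 1) x) = fz n c (φ (H l x))
  big : ∀ l, i < l → l ≤ j → l₀ < hd (H l) 0
  bnd : ∀ l, i ≤ l → l ≤ j → ∀ x ∈ UD, hd (H l) x ≤
    Real.exp (32 * n ^ 2 * ∑ q ∈ Finset.Ico l j, (1 - ‖y q‖) ^ 2) / 8

/-- FIT: iterates of a family: `f^(l-q)(φ (H q x)) = φ (H l x)`. PROOF. Induction on `l - q`. -/
def FIT_stmt : Prop := ∀ (n : ℕ) (c : ℂ) (φ : ℂ → ℂ) (l₀ : ℝ) (y : ℕ → ℂ) (j i : ℕ) (H : ℕ → ℂ → ℂ),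
  Fam n c φ l₀ y j i H → ∀ q l, i ≤ q → q ≤ l → l ≤ j → ∀ x ∈ UD, (fz n c)^[l - q] (φ (H q x)) = φ (H l x)

/-- FBD: a family satisfies `hd ≤ 1/4`. Uses CNH, SMH, FIT.
PROOF. `N` from CNH for `l = l₀`. `M` such that `32 n² (2 N 2^(-M) + 2 · 4^(-M)) ≤ log 2`. The sum over `q ∈ [l, j)`: the index `q = i` (if `l = i`) contributes `≤ 4^(-M)`; for the others (`i < q < j`) `l₀ < hd (H q) 0` (`big`), so the count CNH (with FIT) applies to every dyadic class: SMH with `a q = 1 - ‖y q‖`. So the exponential is `≤ 2`. -/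
def FBD_stmt : Prop := ∀ n : ℕ, 2 ≤ n → ∀ r > (0 : ℝ), ∀ l₀ > (0 : ℝ), ∃ M₀ : ℕ, ∀ M ≥ M₀, ∀ c ∈ multibrot n,
  Disjoint (ball c r) (hyperbolic n) → ∀ (V : Set ℂ) (φ : ℂ → ℂ), RM V 0 φ → ∀ (y : ℕ → ℂ) (j i : ℕ) (H : ℕ → ℂ → ℂ),
  Orb n c φ M y j → Fam n c φ l₀ y j i H → ∀ l, i ≤ l → l ≤ j → ∀ x ∈ UD, hd (H l) x ≤ 1 / 4

/-- FST: one more step of a family. Uses BRH, DST, DLN, MOB.
PROOF. `H i` satisfies `‖T (y i) (H i x)‖ ≤ 1/4` (DLN with `L = 1/4`). BRH for `H' = H i`, `y := y (i-1)` (`Orb.stp`; `‖y (i-1)‖^n ≥ (1 - 2^(-M))^n ≥ 3/4` for `M` large, hypothesis `hM`): new `H (i-1)`, `‖T (y (i-1)) (H (i-1) x)‖ ≤ 1/3`, so `1 - ‖H (i-1) x‖ ≤ 4(1 - ‖y (i-1)‖) ≤ 1/2` (MOB). DST: `hd (H (i-1)) x ≤ exp(2 n² · 16 (1 - ‖y (i-1)‖)²) hd (H i) x`.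
Take `H' = Function.update H (i-1) new`. `big` for `l = i` is the hypothesis. -/
def FST_stmt : Prop := ∀ (n : ℕ) (c : ℂ) (V : Set ℂ) (φ ψ : ℂ → ℂ) (b : ℂ), SG n c V φ ψ b →
  ∀ (l₀ : ℝ) (M : ℕ) (y : ℕ → ℂ) (j i : ℕ) (H : ℕ → ℂ → ℂ), 3 / 4 ≤ (1 - (1 / 2 : ℝ) ^ M) ^ n → 4 * (1 / 2 : ℝ) ^ M ≤ 1 / 2 →
  Orb n c φ M y j → Fam n c φ l₀ y j (i + 1) H → (∀ x ∈ UD, hd (H (i + 1)) x ≤ 1 / 4) → l₀ < hd (H (i + 1)) 0 →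
  ∃ H' : ℕ → ℂ → ℂ, Fam n c φ l₀ y j i H'

/-- CLB: clean balls. Uses FBD, FST, FIT, STO, DLN, HDI, MOB.
PROOF. `l₀` from STO, `M` large (FBD, and the two numerical conditions of FST). Strong induction on `j`. Let `i₀` be the smallest `i ≤ j` for which a family `Fam .. j i H` exists (`i = j` works: `H j x = S (y j)(x/16)`, HDI). `hd ≤ 1/4` (FBD). If `i₀ > 0` then `hd (H i₀) 0 ≤ l₀` (FST), so `i₀ < j` (`hd (H j) 0 = 1/16 > l₀`). For `i ≥ i₀`: `H i`: FIT with `l = j`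
and `top`; `‖T (y i) (H i x)‖ ≤ 1/4` (DLN). For `i < i₀`: STO: `‖T (y i₀) (H i₀ x)‖ ≤ 1/64`; the induction hypothesis for the segment `0..i₀` gives `H*` for the index `i`; `H x = H* (16 T (y i₀) (H i₀ x))`: `f^(i₀-i)(φ (H x)) = φ (S (y i₀) (T (y i₀) (H i₀ x))) = φ (H i₀ x)`. -/
def CLB_stmt : Prop := ∀ n : ℕ, 2 ≤ n → ∀ r > (0 : ℝ), ∃ M : ℕ, ∀ c ∈ multibrot n, Disjoint (ball c r) (hyperbolic n) →
  ∀ (V : Set ℂ) (φ ψ : ℂ → ℂ) (b : ℂ), SG n c V φ ψ b → ∀ (y : ℕ → ℂ) (j : ℕ), Orb n c φ M y j → ∀ i ≤ j,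
  ∃ H : ℂ → ℂ, UN H ∧ H 0 = y i ∧ (∀ x ∈ UD, (fz n c)^[j - i] (φ (H x)) = φ (S (y j) (x / 16))) ∧
    ∀ x ∈ UD, ‖T (y i) (H x)‖ ≤ 1 / 4

/-! ## Conclusion -/

/-- GRO: the derivative grows. Uses CLB, SHR, SGE, VKB, MOB, HDI, `V3.KO0_stmt`, `V3.KO1_stmt`, `BR.BRG_stmt`.
PROOF. BRG: `interior filled = ∅`. `M` from CLB, `k` from SHR for `ε`, `η = 2^(-M)`; SGE: `φ, ψ, b` for `V_k`. For `z ∈ filled` with `‖f^i z‖ ≥ ε`, `i < j`: `y i = φ⁻¹(f^i z)` is `Orb` (`f^i z ∈ filled ⊆ V_k`). CLB (`i = 0`): `H`; `Z = φ ∘ H` is univalent on `UD`, `Z 0 = z`, `f^j (Z x) = φ (S (y j)(x/16))`, so `(f^j)'(z) Z'(0) = φ'(y j)(1 - ‖y j‖²)/16`, of modulus `≥ κ > 0`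
(`y j` ranges over the compact set `φ⁻¹(filled)`, `φ' ≠ 0`). Suppose the claim fails for `Λ₀`: for every `N` there are `j ≥ N`, `z` with `‖(f^j)'(z)‖ ≤ Λ₀`: `‖Z'(0)‖ ≥ κ/Λ₀`, KO1: `ball z (κ/(Λ₀ K)) ⊆ Z '' UD`, so `f^j` maps this ball into `V_k`: the ball is in `V_(k+j) ⊆ V_(k+N)`. Limit point `z*` of these `z` (`N → ∞`; `filled` compact): `ball z* (κ/(2Λ₀K)) ⊆ V_l` for all `l`,
so it is in `filled`: contradiction. -/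
def GRO_stmt : Prop := ∀ n : ℕ, 2 ≤ n → ∀ c ∈ multibrot n, c ∉ closure (hyperbolic n) → ∀ ε > (0 : ℝ), ∀ Λ₀ : ℝ, ∃ N : ℕ,
  ∀ j ≥ N, ∀ z ∈ filled n c, (∀ i < j, ε ≤ ‖(fz n c)^[i] z‖) → Λ₀ < ‖deriv ((fz n c)^[j]) z‖

/-- EXP: exponential growth. Uses GRO, VKB.
PROOF. `N ≥ 1` from GRO for `Λ₀ = 2`. `j = q N + s`, `s < N`: `(f^j)'(z)` is the product of `q` factors `(f^N)'(f^(lN) z)`, each of modulus `≥ 2`, and `(f^s)'(f^(qN) z)`, of modulus `≥ (n ε^(n-1))^s ≥ min 1 (n ε^(n-1))^N`. `θ = 2^(1/N)`, `C = min 1 (..)^N/2`. -/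
def EXP_stmt : Prop := ∀ n : ℕ, 2 ≤ n → ∀ c ∈ multibrot n, c ∉ closure (hyperbolic n) → ∀ ε > (0 : ℝ), ∃ C > (0 : ℝ),
  ∃ θ > (1 : ℝ), ∀ (j : ℕ), ∀ z ∈ filled n c, (∀ i < j, ε ≤ ‖(fz n c)^[i] z‖) → C * θ ^ j ≤ ‖deriv ((fz n c)^[j]) z‖

/-- HYC: hand-in form for compact invariant sets. Uses GRO, VKB.
PROOF. `Λ ⊆ filled` (bounded orbits, growth), `‖z‖ ≥ ε > 0` on `Λ`. If `c ∉ closure H_n`: GRO with `Λ₀ = 1`: `‖(f^m)'(z)‖ > 1` for `m ≥ max N 1` and all `z ∈ Λ`. -/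
def HYC_stmt : Prop := ∀ (n : ℕ) (c : ℂ) (Λ : Set ℂ), 2 ≤ n → c ∈ multibrot n → IsCompact Λ → (0 : ℂ) ∉ Λ →
  (∀ z ∈ Λ, z ^ n + c ∈ Λ) → (∀ m : ℕ, 1 ≤ m → ∃ z ∈ Λ, ‖deriv ((fun z : ℂ => z ^ n + c)^[m]) z‖ ≤ 1) →
  c ∈ closure (hyperbolic n)

end HY
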