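import Pool.Agent.helper52.HY.Spec

/-!
# Project hy: (MP_af9036_an), second part: the uniform form of Theorem HYP

THEOREM (`EXU_stmt`). For `n ≥ 2`, `r > 0`, `ε > 0` there are `C > 0`, `θ > 1`, depending only on `n, r, ε`, such that for every `c ∈ M_n` whose distance from `H_n` is at least `r`, and every `z` in the filled Julia set of `f z = z^n + c`
with `|f^i z| ≥ ε` for `i < j`: `|(f^j)'(z)| ≥ C θ^j`. In particular (`CYU_stmt`) all cycles of `f` outside `ball 0 ε` have multiplier of modulus `≥ θ^(period)`.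

RULES. As in `Pool/Agent/helper52/HY/Spec.lean`: file `Pool/Agent/<seat>/HY/XX.lean`: `import Pool.Agent.helper52.HY.SpecU`, `set_option autoImplicit false`, `open Complex Metric Set Filter Topology MeasureTheory`,
`open Pool.Agent.helper98.ILF Pool.Agent.helper16.Multibrot`, `noncomputable section`, `namespace HY`, `theorem XX (h : YY_stmt) ... : XX_stmt`. Auxiliary lemmas are prefixed `XX_`. No `sorry`, no double quotes in comments.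
-/

set_option autoImplicit false

open Complex Metric Set Filter Topology MeasureTheory
open Pool.Agent.helper98.ILF Pool.Agent.helper16.Multibrot

noncomputable section

namespace HY

/-- MCL: compactness in the parameter. Uses VKB.
PROOF. (1) All orbit points of `0` are bounded by `4` for `c ∈ multibrot n` (VKB: `0 ∈ filled n c`, `‖c‖ ≤ 2`); conversely if the orbit of `0` is bounded then `c ∈ multibrot n` (definition; see Pool/Agent/helper16/Multibrot/Defs.lean). `‖c‖ ≤ 2`. So `multibrot n` is bounded and closed (for every `l` the map `c ↦ f_c^l(0)` is continuous, induction on `l`). (2) If `w ∈ ball c r` then `w ∈ ball (c_i) r` eventually; a closed set of `c`. -/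
def MCL_stmt : Prop := ∀ n : ℕ, 2 ≤ n → IsCompact (multibrot n) ∧
  ∀ r : ℝ, IsClosed {c : ℂ | Disjoint (ball c r) (hyperbolic n)} ∧
    (∀ c : ℂ, 0 < r → Disjoint (ball c r) (hyperbolic n) → c ∉ closure (hyperbolic n)) ∧
    ∀ c : ℂ, c ∉ closure (hyperbolic n) → ∃ r' > (0 : ℝ), Disjoint (ball c r') (hyperbolic n)

/-- MGN: uniform margin. Uses VKB.
PROOF. A point of `filled n c` has norm `≤ 2` (if `‖z‖ ≥ 2 + t`, `t > 0`: `‖z^n + c‖ ≥ ‖z‖² - 2 ≥ ‖z‖ + t‖z‖`, `≥ (1 + t) ‖z‖ `: the orbit tends to infinity). So `‖f^k z‖ ≤ 2` on `filled n c`. The map `(c, z) ↦ f_c^k(z)` is continuous, so it is uniformly continuous on the compact set `closedBall 0 2 ×ˢ closedBall 0 3`: `d ≤ 1` with `‖f^k z' - f^k z‖ < 1` for `‖z' - z‖ < d`. -/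
def MGN_stmt : Prop := ∀ n : ℕ, 2 ≤ n → ∀ k : ℕ, ∃ d > (0 : ℝ), ∀ c ∈ multibrot n, ∀ z ∈ filled n c, ball z d ⊆ VV n c k

/-- DPH: derivative of a Riemann map. Uses MOB, `V3.KO0_stmt`.
PROOF. `Φ = φ ∘ S y` is injective and holomorphic on `UD`, with image `V ⊇ ball (φ y) d`, `Φ 0 = φ y`, `Φ' 0 = φ'(y) (1 - ‖y‖²)`. The inverse `g : V → UD` is holomorphic (KO0), `G u = g (φ y + d u)` maps `UD` to `UD`, `G 0 = 0`, so `‖G' 0‖ ≤ 1` (Schwarz) and `G' 0 = d / Φ' 0`. -/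
def DPH_stmt : Prop := ∀ (V : Set ℂ) (a : ℂ) (φ : ℂ → ℂ), RM V a φ → ∀ y ∈ UD, ∀ d > (0 : ℝ), ball (φ y) d ⊆ V →
  d ≤ ‖deriv φ y‖ * (1 - ‖y‖ ^ 2)

/-- LMU: `V_N` is thin near the filled Julia set, uniformly. Uses MCL, VKB, `BR.BRG_stmt`.
PROOF. Suppose not: `c_N`, `z_N ∈ filled n c_N`, `ball z_N ρ ⊆ VV n c_N N` for all `N`. A subsequence: `c_N → c` (MCL: `c ∈ multibrot n`, `Disjoint (ball c r) (hyperbolic n)`), `z_N → z`. For `w ∈ ball z (ρ/2)`, `l` fixed and `N ≥ l` in the subsequence, large: `w ∈ VV n c_N N ⊆ VV n c_N l`, so `‖f_(c_N)^l w‖ < 4`; limit: `‖f_c^l w‖ ≤ 4` for all `l`;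
bounded orbit, so `w ∈ filled n c` (`growth_iterate` in Pool/Agent/helper98/ILF/Poly.lean). So `ball z (ρ/2) ⊆ interior (filled n c)`, which is empty (BRG). -/
def LMU_stmt : Prop := ∀ n : ℕ, 2 ≤ n → ∀ r > (0 : ℝ), ∀ ρ > (0 : ℝ), ∃ N : ℕ, ∀ c ∈ multibrot n,
  Disjoint (ball c r) (hyperbolic n) → ∀ z ∈ filled n c, ¬ ball z ρ ⊆ VV n c N

/-- SHU: uniform form of SHR. Uses MCL, VKB, `V3.TMO_stmt`, `V3.TUL_stmt` (or any Montel theorem), `BR.BRG_stmt`.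
PROOF. As SHR with varying `c`. Suppose not: for every `k`: `c_k`, a Riemann map `φ_k` of `VV n c_k k`, `φ_k 0 = 0`, and `x_k`, `‖x_k‖ ≤ 1 - η`, `φ_k x_k ∈ filled n c_k`, `‖φ_k x_k‖ ≥ ε`. Along an ultrafilter (`hyperfilter ℕ`) `c_k → c` (MCL), `x_k → x`, `φ_k → F` locally uniformly (`‖φ_k‖ ≤ 4`, TMO), `F 0 = 0`, `‖F x‖ ≥ ε`: not constant,
`F '' UD` is open. For `u ∈ UD`, `l` fixed: `φ_k u ∈ VV n c_k k ⊆ VV n c_k l` (`k ≥ l`): `‖f_c^l (F u)‖ ≤ 4`; so `F u ∈ filled n c`, which has empty interior (BRG). -/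
def SHU_stmt : Prop := ∀ n : ℕ, 2 ≤ n → ∀ r > (0 : ℝ), ∀ ε > (0 : ℝ), ∀ η > (0 : ℝ), ∃ k : ℕ, ∀ c ∈ multibrot n,
  Disjoint (ball c r) (hyperbolic n) → ∀ φ : ℂ → ℂ, RM (VV n c k) 0 φ → ∀ x ∈ UD, φ x ∈ filled n c → ε ≤ ‖φ x‖ → 1 - ‖x‖ ≤ η

/-- GRU: the derivative grows, uniformly. Uses CLB, SHU, SGE, VKB, MGN, DPH, LMU, MOB, HDI, `V3.KO0_stmt`, `V3.KO1_stmt`.
PROOF. As GRO. `M` from CLB, `k` from SHU for `ε`, `η = 2^(-M)`, `d` from MGN for `k`; SGE: `φ, ψ, b` for `V_k`. For `z ∈ filled` with `‖f^i z‖ ≥ ε`, `i < j`: `y i = φ⁻¹(f^i z)` is `Orb`. CLB (`i = 0`): `H`; `Z = φ ∘ H` is univalent on `UD`, `Z 0 = z`, `f^j (Z x) = φ (S (y j)(x/16))`, so `‖(f^j)'(z)‖ ‖Z'(0)‖ = ‖φ'(y j)‖(1 - ‖y j‖²)/16 ≥ d/16` (DPH; `f^j z ∈ filled`).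
If `‖(f^j)'(z)‖ ≤ Λ₀` (we may assume `Λ₀ > 0`) then `‖Z'(0)‖ ≥ d/(16 Λ₀)` and KO1: `ball z ρ ⊆ Z '' UD`, `ρ = d/(16 Λ₀ K)`; `f^j` maps this ball into `V_k`: `ball z ρ ⊆ V_(k+j) ⊆ V_N` for `j ≥ N`: contradiction if `N` is from LMU for `ρ`. -/
def GRU_stmt : Prop := ∀ n : ℕ, 2 ≤ n → ∀ r > (0 : ℝ), ∀ ε > (0 : ℝ), ∀ Λ₀ : ℝ, ∃ N : ℕ, ∀ c ∈ multibrot n,
  Disjoint (ball c r) (hyperbolic n) → ∀ j ≥ N, ∀ z ∈ filled n c, (∀ i < j, ε ≤ ‖(fz n c)^[i] z‖) →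
  Λ₀ < ‖deriv ((fz n c)^[j]) z‖

/-- EXU: uniform exponential growth. Uses GRU, VKB.
PROOF. As EXP: `N ≥ 1` from GRU for `Λ₀ = 2`. `j = q N + s`, `s < N`: `(f^j)'(z)` is the product of `q` factors `(f^N)'(f^(lN) z)`, each of modulus `≥ 2`, and `(f^s)'(f^(qN) z)`, of modulus `≥ (n ε^(n-1))^s ≥ (min 1 (n ε^(n-1)))^N`. `θ = 2^(1/N)`, `C = (min 1 ..)^N/2`. -/
def EXU_stmt : Prop := ∀ n : ℕ, 2 ≤ n → ∀ r > (0 : ℝ), ∀ ε > (0 : ℝ), ∃ C > (0 : ℝ), ∃ θ > (1 : ℝ), ∀ c ∈ multibrot n,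
  Disjoint (ball c r) (hyperbolic n) → ∀ (j : ℕ) (z : ℂ), z ∈ filled n c → (∀ i < j, ε ≤ ‖(fz n c)^[i] z‖) →
  C * θ ^ j ≤ ‖deriv ((fz n c)^[j]) z‖

/-- CYU: cycles, uniformly. Uses EXU, VKB.
PROOF. `C, θ` from EXU. A periodic point has a bounded orbit, so it is in `filled` (`growth_iterate`). `(f^(jk))'(z) = ((f^k)'(z))^j`, so `C θ^(jk) ≤ ‖(f^k)'(z)‖^j` for all `j`: `‖(f^k)'(z)‖ ≥ θ^k` (otherwise `(‖(f^k)'(z)‖/θ^k)^j → 0`). -/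
def CYU_stmt : Prop := ∀ n : ℕ, 2 ≤ n → ∀ r > (0 : ℝ), ∀ ε > (0 : ℝ), ∃ θ > (1 : ℝ), ∀ c ∈ multibrot n,
  Disjoint (ball c r) (hyperbolic n) → ∀ (k : ℕ) (z : ℂ), 1 ≤ k → (fz n c)^[k] z = z → (∀ i < k, ε ≤ ‖(fz n c)^[i] z‖) →
  θ ^ k ≤ ‖deriv ((fz n c)^[k]) z‖

/-- CYC: cycles, closure form. Uses CYU, MCL.
PROOF. If `c ∉ closure H_n`: `r` from MCL, `θ` from CYU for `r, ε`. The hypothesis for this `θ` contradicts CYU. -/
def CYC_stmt : Prop := ∀ (n : ℕ) (c : ℂ), 2 ≤ n → c ∈ multibrot n → ∀ ε > (0 : ℝ), (∀ θ > (1 : ℝ), ∃ (k : ℕ) (z : ℂ), 1 ≤ k ∧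
  (fz n c)^[k] z = z ∧ (∀ i < k, ε ≤ ‖(fz n c)^[i] z‖) ∧ ‖deriv ((fz n c)^[k]) z‖ < θ ^ k) → c ∈ closure (hyperbolic n)

end HY
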