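import Pool.Agent.helper52.WP.All
import Pool.Agent.helper45.BR.All
import Pool.Agent.helper36.MP.All
import Pool.Agent.helper52.HY.Spec
import Pool.Agent.helper52.HY.SpecU
import Pool.Agent.helper19.HY.DST
import Pool.Agent.helper2.HY.RMI
import Pool.Agent.helper23.HY.SHU
import Pool.Agent.helper24.HY.CYU
import Pool.Agent.helper25.HY.COV
import Pool.Agent.helper25.HY.MOB
import Pool.Agent.helper25.HY.RMC
import Pool.Agent.helper26.HY.HYC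
import Pool.Agent.helper31.HY.CNH
import Pool.Agent.helper34.HY.EXP
import Pool.Agent.helper42.HY.MCL
import Pool.Agent.helper43.HY.GRO
import Pool.Agent.helper43.HY.GRU
import Pool.Agent.helper46.HY.KAP
import Pool.Agent.helper51.HY.BRH
import Pool.Agent.helper55.HY.SMH
import Pool.Agent.helper58.HY.FBD
import Pool.Agent.helper62.HY.CYC
import Pool.Agent.helper62.HY.DPH
import Pool.Agent.helper62.HY.HDI
import Pool.Agent.helper62.HY.SGE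
import Pool.Agent.helper71.HY.CLB
import Pool.Agent.helper72.HY.DLN
import Pool.Agent.helper73.HY.VKB
import Pool.Agent.helper77.HY.STO
import Pool.Agent.helper78.HY.FIT
import Pool.Agent.helper81.HY.CLO
import Pool.Agent.helper82.HY.MGN
import Pool.Agent.helper82.HY.SHR
import Pool.Agent.helper87.HY.PIG
import Pool.Agent.helper99.HY.FST
import Pool.Agent.helper99.HY.LMU
import Pool.Agent.helper99.HY.PDC

/-! Assembly of the rows `hy:` (Theorem HYP). -/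

theorem HY.MOB_y : HY.MOB_stmt :=
  HY.MOB 
theorem HY.HDI_y : HY.HDI_stmt :=
  HY.HDI HY.MOB_y
theorem HY.DLN_y : HY.DLN_stmt :=
  HY.DLN HY.MOB_y HY.HDI_y
theorem HY.KAP_y : HY.KAP_stmt :=
  HY.KAP 
theorem HY.PIG_y : HY.PIG_stmt :=
  HY.PIG 
theorem HY.COV_y : HY.COV_stmt :=
  HY.COV 
theorem HY.STO_y : HY.STO_stmt :=
  HY.STO HY.MOB_y HY.HDI_y V3A.KO3_v
theorem HY.VKB_y : HY.VKB_stmt :=
  HY.VKB 
theorem HY.RMI_y : HY.RMI_stmt :=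
  HY.RMI V3A.KO0_v MPS.LR_ok MPS.LRU_ok
theorem HY.RMC_y : HY.RMC_stmt :=
  HY.RMC HY.MOB_y
theorem HY.SGE_y : HY.SGE_stmt :=
  HY.SGE HY.RMI_y HY.RMC_y HY.VKB_y
theorem HY.SHR_y : HY.SHR_stmt :=
  HY.SHR HY.VKB_y V3A.TMO_v V3A.TUL_v
theorem HY.PDC_y : HY.PDC_stmt :=
  HY.PDC HY.MOB_y V3A.KO0_v
theorem HY.DST_y : HY.DST_stmt :=
  HY.DST HY.MOB_y HY.HDI_y HY.KAP_y V3A.KO0_v
theorem HY.BRH_y : HY.BRH_stmt :=
  HY.BRH HY.MOB_y HY.PDC_y MPS.LR_ok V3A.KO0_v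
theorem HY.CLO_y : HY.CLO_stmt :=
  HY.CLO WPT.WPU_w HY.MOB_y HY.HDI_y V3A.KO0_v V3A.KO1_v V3A.KO3_v
theorem HY.CNH_y : HY.CNH_stmt :=
  HY.CNH HY.CLO_y HY.PIG_y HY.COV_y HY.MOB_y
theorem HY.SMH_y : HY.SMH_stmt :=
  HY.SMH 
theorem HY.FIT_y : HY.FIT_stmt :=
  HY.FIT 
theorem HY.FBD_y : HY.FBD_stmt :=
  HY.FBD HY.CNH_y HY.SMH_y HY.FIT_y
theorem HY.FST_y : HY.FST_stmt :=
  HY.FST HY.BRH_y HY.DST_y HY.DLN_y HY.MOB_y
theorem HY.CLB_y : HY.CLB_stmt :=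
  HY.CLB HY.FBD_y HY.FST_y HY.FIT_y HY.STO_y HY.DLN_y HY.HDI_y HY.MOB_y
theorem HY.GRO_y : HY.GRO_stmt :=
  HY.GRO HY.CLB_y HY.SHR_y HY.SGE_y HY.VKB_y HY.MOB_y HY.HDI_y V3A.KO0_v V3A.KO1_v BR.bridge
theorem HY.EXP_y : HY.EXP_stmt :=
  HY.EXP HY.GRO_y
theorem HY.HYC_y : HY.HYC_stmt :=
  HY.HYC HY.GRO_y
theorem HY.MCL_y : HY.MCL_stmt :=
  HY.MCL HY.VKB_y
theorem HY.MGN_y : HY.MGN_stmt :=
  HY.MGN HY.VKB_y
theorem HY.DPH_y : HY.DPH_stmt :=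
  HY.DPH HY.MOB_y V3A.KO0_v
theorem HY.LMU_y : HY.LMU_stmt :=
  HY.LMU HY.MCL_y HY.VKB_y BR.bridge
theorem HY.SHU_y : HY.SHU_stmt :=
  HY.SHU HY.MCL_y HY.VKB_y V3A.TMO_v V3A.TUL_v BR.bridge
theorem HY.GRU_y : HY.GRU_stmt :=
  HY.GRU HY.CLB_y HY.SHU_y HY.SGE_y HY.VKB_y HY.MGN_y HY.DPH_y HY.LMU_y HY.HDI_y V3A.KO1_v
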